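import Pool.Agent.Y422.TW.Final

/-!
# Colourings with few colour changes in the rows: the pair lemma with losses
-/

namespace Pool.Agent.Run7.h614.RA

open Finset Real

open Classical

open Pool.Agent.Y422.TW

/-- The colour changes in the row of `v` to the right of the diagonal. -/
noncomputable def rowSet {n : ℕ} (G : SimpleGraph (Fin n)) (v : Fin n) : Finset (Fin n) :=
  Finset.univ.filter (fun w => v < w ∧ ∃ h : (w : ℕ) + 1 < n, ¬ (G.Adj v w ↔ G.Adj v ⟨w + 1, h⟩))

/-- The number of colour changes in the row of `v` to the right of the diagonal. -/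
noncomputable def rowAlt {n : ℕ} (G : SimpleGraph (Fin n)) (v : Fin n) : ℕ := (rowSet G v).card

/-- A row which is not constant between `a` and `b` has a change between `a` and `b`. -/
theorem exists_change {n : ℕ} (G : SimpleGraph (Fin n)) (v a b : Fin n) (hva : v < a) (hab : a ≤ b)
    (h : ¬ (G.Adj v a ↔ G.Adj v b)) : ∃ w ∈ rowSet G v, a ≤ w ∧ w < b := by
  obtain ⟨b, hb⟩ := b
  induction b with
  | zero =>
    have : a = ⟨0, hb⟩ := le_antisymm hab (Fin.mk_le_of_le_val (Nat.zero_le _))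
    subst this
    exact absurd Iff.rfl h
  | succ b ih =>
    rcases eq_or_lt_of_le hab with rfl | hlt
    · exact absurd Iff.rfl h
    · have hb' : b < n := by omega
      have hab' : a ≤ ⟨b, hb'⟩ := by
        rw [Fin.lt_def] at hlt
        rw [Fin.le_def]
        exact Nat.lt_succ_iff.1 hlt
      by_cases hc : G.Adj v a ↔ G.Adj v ⟨b, hb'⟩
      · refine ⟨⟨b, hb'⟩, ?_, hab', ?_⟩
        · rw [rowSet, mem_filter]
          refine ⟨mem_univ _, lt_of_lt_of_le hva hab', hb, fun h2 => h (hc.trans h2)⟩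
        · rw [Fin.lt_def]
          exact Nat.lt_succ_self b
      · obtain ⟨w, h1, h2, h3⟩ := ih hb' hab' hc
        refine ⟨w, h1, h2, h3.trans ?_⟩
        rw [Fin.lt_def]
        exact Nat.lt_succ_self b

/-- Finite counting: few bad pairs give a good block. -/
theorem exists_block {ι κ : Type*} (L : Finset ι) (J : Finset κ) (P : ι → κ → Prop) (T M : ℝ)
    (hJ : J.Nonempty) (hM : (L.card : ℝ) * T ≤ J.card * M)
    (h : ∀ v ∈ L, ((J.filter (fun j => P v j)).card : ℝ) ≤ T) :
    ∃ j ∈ J, ((L.filter (fun v => P v j)).card : ℝ) ≤ M := by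
  by_contra hcon
  push Not at hcon
  have h1 : ∑ j ∈ J, ((L.filter (fun v => P v j)).card : ℝ) =
      ∑ v ∈ L, ((J.filter (fun j => P v j)).card : ℝ) := by
    have := Finset.sum_card_bipartiteAbove_eq_sum_card_bipartiteBelow (s := L) (t := J) P
    unfold Finset.bipartiteAbove Finset.bipartiteBelow at this
    exact_mod_cast this.symm
  have h2 : ∑ j ∈ J, M < ∑ j ∈ J, ((L.filter (fun v => P v j)).card : ℝ) :=
    sum_lt_sum_of_nonempty hJ hcon
  have h3 : ∑ v ∈ L, ((J.filter (fun j => P v j)).card : ℝ) ≤ ∑ v ∈ L, T := sum_le_sum h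
  rw [sum_const, nsmul_eq_mul] at h2 h3
  linarith

/-- The pair lemma with losses. -/
theorem pairL {n : ℕ} (G : SimpleGraph (Fin n)) (U : Finset (Fin n)) (T s x : ℝ)
    (hT : 1 ≤ T) (hs : 1 ≤ s) (hx : 1 ≤ x) (hrow : ∀ v ∈ U, (rowAlt G v : ℝ) ≤ T)
    (hU : 12 * x ^ 2 * s * T ≤ U.card) :
    ∃ A R B : Finset (Fin n), A ⊆ U ∧ R ⊆ U ∧ B ⊆ U ∧ s ≤ A.card ∧
      (∀ a ∈ A, ∀ r ∈ R, G.Adj a r) ∧ (∀ a ∈ A, ∀ b ∈ B, Gᶜ.Adj a b) ∧
      (1 - 1 / x) * U.card ≤ (R.card : ℝ) + B.card := by
  set m := U.card with hm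
  set σ := ⌈s⌉₊ with hσ
  set r := ⌈2 * x * T⌉₊ with hr
  have hσ1 : s ≤ σ := Nat.le_ceil s
  have hσ2 : (σ : ℝ) ≤ 2 * s := by
    have := Nat.ceil_lt_add_one (show (0 : ℝ) ≤ s by linarith)
    linarith
  have hr1 : 2 * x * T ≤ r := Nat.le_ceil _
  have hxT : 1 ≤ x * T := by nlinarith
  have hr2 : (r : ℝ) ≤ 3 * (x * T) := by
    have := Nat.ceil_lt_add_one (show (0 : ℝ) ≤ 2 * x * T by nlinarith)
    nlinarith
  have hσpos : 0 < σ := by
    have : (0 : ℝ) < σ := by linarith
    exact_mod_cast this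
  have hrpos : 0 < r := by
    have : (0 : ℝ) < r := by nlinarith
    exact_mod_cast this
  have hx0 : (0 : ℝ) < x := by linarith
  have hrs : (r : ℝ) * σ ≤ m / (2 * x) := by
    rw [le_div_iff₀ (by linarith)]
    have h1 : (r : ℝ) * σ ≤ 3 * (x * T) * (2 * s) :=
      mul_le_mul hr2 hσ2 (Nat.cast_nonneg _) (by positivity)
    have h2 : (r : ℝ) * σ * (2 * x) ≤ 3 * (x * T) * (2 * s) * (2 * x) :=
      mul_le_mul_of_nonneg_right h1 (by linarith)
    calc (r : ℝ) * σ * (2 * x) ≤ 3 * (x * T) * (2 * s) * (2 * x) := h2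
      _ = 12 * x ^ 2 * s * T := by ring
      _ ≤ m := hU
  have hrsm : r * σ ≤ m := by
    have h1 : (m : ℝ) / (2 * x) ≤ m := by
      rw [div_le_iff₀ (by linarith)]
      have : (0 : ℝ) ≤ m := Nat.cast_nonneg _
      nlinarith
    have : (r : ℝ) * σ ≤ m := hrs.trans h1
    exact_mod_cast this
  set h0 := m - r * σ with hh0
  set e := U.orderEmbOfFin hm.symm with he
  have heU : ∀ i, e i ∈ U := fun i => U.orderEmbOfFin_mem hm.symm i
  -- the first and the last index of a block
  have hidx : ∀ j, j < r → ∀ i, i < σ → h0 + j * σ + i < m := by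
    intro j hj i hi
    have h1 : (j + 1) * σ ≤ r * σ := Nat.mul_le_mul_right _ hj
    have h2 : (j + 1) * σ = j * σ + σ := by ring
    omega
  set L : Finset (Fin n) := (Finset.univ.filter (fun i : Fin m => (i : ℕ) < h0)).map
    e.toEmbedding with hL
  set A : ℕ → Finset (Fin n) := fun j => (Finset.univ.filter
    (fun i : Fin m => h0 + j * σ ≤ (i : ℕ) ∧ (i : ℕ) < h0 + (j + 1) * σ)).map e.toEmbedding with hA
  have hAcard : ∀ j, j < r → (A j).card = σ := by
    intro j hj
    rw [hA, card_map]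
    have : (Finset.univ.filter (fun i : Fin m => h0 + j * σ ≤ (i : ℕ) ∧
        (i : ℕ) < h0 + (j + 1) * σ)).card = (Finset.Ico (h0 + j * σ) (h0 + (j + 1) * σ)).card := by
      refine Finset.card_bij (fun i _ => (i : ℕ)) ?_ ?_ ?_
      · intro i hi
        rw [mem_filter] at hi
        exact mem_Ico.2 hi.2
      · intro i _ i' _ h
        exact Fin.ext h
      · intro b hb
        rw [mem_Ico] at hb
        have h1 : (j + 1) * σ ≤ r * σ := Nat.mul_le_mul_right _ hj
        exact ⟨⟨b, by omega⟩, mem_filter.2 ⟨mem_univ _, hb⟩, rfl⟩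
    rw [this, Nat.card_Ico]
    have h2 : (j + 1) * σ = j * σ + σ := by ring
    omega
  have hLcard : L.card = h0 := by
    rw [hL, card_map]
    have : (Finset.univ.filter (fun i : Fin m => (i : ℕ) < h0)).card = (Finset.range h0).card := by
      refine Finset.card_bij (fun i _ => (i : ℕ)) ?_ ?_ ?_
      · intro i hi
        rw [mem_filter] at hi
        exact mem_range.2 hi.2
      · intro i _ i' _ h
        exact Fin.ext h
      · intro b hb
        rw [mem_range] at hb
        exact ⟨⟨b, by omega⟩, mem_filter.2 ⟨mem_univ _, hb⟩, rfl⟩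
    rw [this, card_range]
  have hLU : L ⊆ U := by
    intro v hv
    rw [hL, mem_map] at hv
    obtain ⟨i, _, rfl⟩ := hv
    exact heU i
  have hAU : ∀ j, A j ⊆ U := by
    intro j v hv
    rw [hA] at hv
    obtain ⟨i, _, rfl⟩ := mem_map.1 hv
    exact heU i
  have hLA : ∀ j, ∀ v ∈ L, ∀ a ∈ A j, v < a := by
    intro j v hv a ha
    obtain ⟨i, hi, rfl⟩ := mem_map.1 hv
    obtain ⟨i', hi', rfl⟩ := mem_map.1 ha
    have h1 := (mem_filter.1 hi).2
    have h2 := (mem_filter.1 hi').2.1
    show e i < e i'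
    rw [OrderEmbedding.lt_iff_lt, Fin.lt_def]
    omega
  -- non-constant rows
  obtain ⟨P, hP⟩ : ∃ P : Fin n → ℕ → Prop, ∀ v j, P v j ↔
      ∃ a ∈ A j, ∃ a' ∈ A j, ¬ (G.Adj v a ↔ G.Adj v a') := ⟨_, fun _ _ => Iff.rfl⟩
  have hchange : ∀ v ∈ L, ∀ j, P v j → ∃ w ∈ rowSet G v, (∃ a ∈ A j, a ≤ w) ∧
      (∃ b ∈ A j, w < b) := by
    intro v hv j hPj
    obtain ⟨a, ha, a', ha', hne⟩ := (hP v j).1 hPj
    rcases le_total a a' with hle | hle
    · obtain ⟨w, h1, h2, h3⟩ := exists_change G v a a' (hLA j v hv a ha) hle hne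
      exact ⟨w, h1, ⟨a, ha, h2⟩, ⟨a', ha', h3⟩⟩
    · obtain ⟨w, h1, h2, h3⟩ := exists_change G v a' a (hLA j v hv a' ha') hle
        (fun h => hne h.symm)
      exact ⟨w, h1, ⟨a', ha', h2⟩, ⟨a, ha, h3⟩⟩
  have hsep : ∀ j j', j < j' → ∀ b ∈ A j, ∀ a ∈ A j', b < a := by
    intro j j' hjj b hb a ha
    obtain ⟨i, hi, rfl⟩ := mem_map.1 hb
    obtain ⟨i', hi', rfl⟩ := mem_map.1 ha
    have h1 := (mem_filter.1 hi).2.2
    have h2 := (mem_filter.1 hi').2.1
    have h3 : (j + 1) * σ ≤ j' * σ := Nat.mul_le_mul_right _ hjj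
    show e i < e i'
    rw [OrderEmbedding.lt_iff_lt, Fin.lt_def]
    omega
  have hcount : ∀ v ∈ L, (((Finset.range r).filter (fun j => P v j)).card : ℝ) ≤ T := by
    intro v hv
    refine le_trans ?_ (hrow v (hLU hv))
    rw [rowAlt]
    have hch : ∀ j, ∃ w : Fin n, P v j → w ∈ rowSet G v ∧ (∃ a ∈ A j, a ≤ w) ∧
        (∃ b ∈ A j, w < b) := by
      intro j
      by_cases hj : P v j
      · obtain ⟨w, h1, h2, h3⟩ := hchange v hv j hj
        exact ⟨w, fun _ => ⟨h1, h2, h3⟩⟩
      · exact ⟨v, fun h => absurd h hj⟩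
    choose f hf using hch
    have : ((Finset.range r).filter (fun j => P v j)).card ≤ (rowSet G v).card := by
      refine Finset.card_le_card_of_injOn f ?_ ?_
      · intro j hj
        exact (hf j (mem_filter.1 hj).2).1
      · intro j hj j' hj' hff
        have g1 := hf j (mem_filter.1 hj).2
        have g2 := hf j' (mem_filter.1 hj').2
        by_contra hne
        rcases lt_or_gt_of_ne hne with hlt | hlt
        · obtain ⟨b, hb, hb2⟩ := g1.2.2
          obtain ⟨a, ha, ha2⟩ := g2.2.1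
          have h1 := hsep j j' hlt b hb a ha
          rw [hff] at hb2
          exact absurd (lt_of_lt_of_le h1 ha2) (not_lt.2 hb2.le)
        · obtain ⟨b, hb, hb2⟩ := g2.2.2
          obtain ⟨a, ha, ha2⟩ := g1.2.1
          have h1 := hsep j' j hlt b hb a ha
          rw [← hff] at hb2
          exact absurd (lt_of_lt_of_le h1 ha2) (not_lt.2 hb2.le)
    exact_mod_cast this
  obtain ⟨j, hj, hbad⟩ := exists_block L (Finset.range r) P T (m / (2 * x))
    ⟨0, mem_range.2 hrpos⟩ (by
      rw [hLcard, card_range]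
      have h1 : (h0 : ℝ) ≤ m := by
        have : h0 ≤ m := Nat.sub_le _ _
        exact_mod_cast this
      have h2 : (r : ℝ) * (m / (2 * x)) = r * m / (2 * x) := by ring
      rw [h2, le_div_iff₀ (by linarith)]
      have h3 : (0 : ℝ) ≤ m := Nat.cast_nonneg _
      have h4 : (h0 : ℝ) * T ≤ m * T := mul_le_mul_of_nonneg_right h1 (by linarith)
      nlinarith) hcount
  rw [mem_range] at hj
  set R := L.filter (fun v => ∀ a ∈ A j, G.Adj a v) with hR
  set B := L.filter (fun v => ∀ a ∈ A j, Gᶜ.Adj a v) with hB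
  refine ⟨A j, R, B, hAU j, (filter_subset _ _).trans hLU, (filter_subset _ _).trans hLU, ?_, ?_,
    ?_, ?_⟩
  · rw [hAcard j hj]
    exact hσ1
  · intro a ha v hv
    exact (mem_filter.1 hv).2 a ha
  · intro a ha v hv
    exact (mem_filter.1 hv).2 a ha
  · have hsub : L ⊆ (R ∪ B) ∪ L.filter (fun v => P v j) := by
      intro v hv
      by_cases hPv : P v j
      · exact mem_union_right _ (mem_filter.2 ⟨hv, hPv⟩)
      · refine mem_union_left _ ?_
        have hne : (A j).Nonempty := by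
          rw [← card_pos, hAcard j hj]
          exact hσpos
        obtain ⟨a0, ha0⟩ := hne
        have hall : ∀ a ∈ A j, (G.Adj v a0 ↔ G.Adj v a) := by
          intro a ha
          by_contra hcon
          exact hPv ((hP v j).2 ⟨a0, ha0, a, ha, hcon⟩)
        by_cases hadj : G.Adj v a0
        · exact mem_union_left _ (mem_filter.2 ⟨hv, fun a ha => ((hall a ha).1 hadj).symm⟩)
        · refine mem_union_right _ (mem_filter.2 ⟨hv, fun a ha => ?_⟩)
          rw [SimpleGraph.compl_adj]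
          exact ⟨(hLA j v hv a ha).ne', fun h => hadj ((hall a ha).2 h.symm)⟩
    have h1 := (card_le_card hsub).trans ((card_union_le _ _).trans
      (Nat.add_le_add_right (card_union_le _ _) _))
    have h2 : (L.card : ℝ) ≤ R.card + B.card + (L.filter (fun v => P v j)).card := by
      exact_mod_cast h1
    have h3 : (L.card : ℝ) = m - r * σ := by
      rw [hLcard, hh0, Nat.cast_sub hrsm]
      push_cast
      ring
    have h4 : (1 - 1 / x) * (m : ℝ) = m - (m / (2 * x) + m / (2 * x)) := by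
      field_simp
      ring
    rw [h4]
    linarith

end Pool.Agent.Run7.h614.RA
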