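import Pool.Agent.Run7.h614.RA.Lower

/-!
# Orders and growth
-/

namespace Pool.Agent.Run7.h614.RA

open Finset Real Filter Topology

open Classical

open Pool.Agent.Y422.TW Pool.Agent.N920.TW

/-- The number of colour changes above the diagonal. -/
noncomputable def alt {n : ℕ} (G : SimpleGraph (Fin n)) : ℕ := ∑ v, rowAlt G v

/-- The largest number of vertices of a colouring without monochromatic `K_k` on an initial segment
such that each row has at most `t` changes above the diagonal. -/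
noncomputable def rowOrder (k t : ℕ) : ℕ :=
  sSup {n : ℕ | ∃ G : SimpleGraph (Fin n), NoMono G k ∧ ∀ v, rowAlt G v ≤ t}

/-- The largest number `n` of vertices of a colouring without monochromatic `K_k` on an initial
segment with at most `t n` changes above the diagonal. -/
noncomputable def altOrder (k t : ℕ) : ℕ :=
  sSup {n : ℕ | ∃ G : SimpleGraph (Fin n), NoMono G k ∧ alt G ≤ t * n}

theorem pos_of_noMono {V : Type*} {G : SimpleGraph V} {k : ℕ} (h : NoMono G k) : 1 ≤ k := by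
  rcases Nat.eq_zero_or_pos k with rfl | hk
  · exact absurd h.1 (by simp)
  · exact hk

theorem bdd_row (k t : ℕ) :
    BddAbove {n : ℕ | ∃ G : SimpleGraph (Fin n), NoMono G k ∧ ∀ v, rowAlt G v ≤ t} := by
  refine ⟨ramsey k, ?_⟩
  rintro n ⟨G, hG, -⟩
  have := card_lt_ramsey hG
  rw [Fintype.card_fin] at this
  exact this.le

theorem bdd_alt (k t : ℕ) :
    BddAbove {n : ℕ | ∃ G : SimpleGraph (Fin n), NoMono G k ∧ alt G ≤ t * n} := by
  refine ⟨ramsey k, ?_⟩
  rintro n ⟨G, hG, -⟩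
  have := card_lt_ramsey hG
  rw [Fintype.card_fin] at this
  exact this.le

theorem row_le_alt (k t : ℕ) : rowOrder k t ≤ altOrder k t := by
  rcases Set.eq_empty_or_nonempty
    {n : ℕ | ∃ G : SimpleGraph (Fin n), NoMono G k ∧ ∀ v, rowAlt G v ≤ t} with he | hne
  · rw [rowOrder, he]
    simp
  · obtain ⟨G, h1, h2⟩ := Nat.sSup_mem hne (bdd_row k t)
    refine le_csSup (bdd_alt k t) ⟨G, h1, ?_⟩
    calc alt G ≤ ∑ _v : Fin _, t := sum_le_sum (fun v _ => h2 v)
      _ = t * _ := by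
        rw [sum_const, card_univ, Fintype.card_fin, smul_eq_mul, mul_comm]
        rfl

theorem alt_lt_ramsey (k t : ℕ) (hk : 1 ≤ k) : altOrder k t < ramsey k := by
  rcases Set.eq_empty_or_nonempty
    {n : ℕ | ∃ G : SimpleGraph (Fin n), NoMono G k ∧ alt G ≤ t * n} with he | hne
  · have h1 : NoMono (⊥ : SimpleGraph (Fin 0)) k :=
      ⟨SimpleGraph.cliqueFree_of_card_lt (by rw [Fintype.card_fin]; omega),
        SimpleGraph.cliqueFree_of_card_lt (by rw [Fintype.card_fin]; omega)⟩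
    have h2 := card_lt_ramsey h1
    rw [Fintype.card_fin] at h2
    rw [altOrder, he]
    simpa using h2
  · obtain ⟨G, h1, -⟩ := Nat.sSup_mem hne (bdd_alt k t)
    have h3 := card_lt_ramsey h1
    rwa [Fintype.card_fin] at h3

theorem min_le_row (k t : ℕ) (hk : 1 ≤ k) : min (t + 2) (ramsey k - 1) ≤ rowOrder k t := by
  have hr : 0 < ramsey k := by
    have h1 : NoMono (⊥ : SimpleGraph (Fin 0)) k :=
      ⟨SimpleGraph.cliqueFree_of_card_lt (by rw [Fintype.card_fin]; omega),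
        SimpleGraph.cliqueFree_of_card_lt (by rw [Fintype.card_fin]; omega)⟩
    have := card_lt_ramsey h1
    rwa [Fintype.card_fin] at this
  set n := min (t + 2) (ramsey k - 1) with hn
  have hn1 : n < ramsey k := by omega
  obtain ⟨G, hG⟩ := exists_of_lt_ramsey hn1
  refine le_csSup (bdd_row k t) ⟨G, hG, fun v => ?_⟩
  have := rowAlt_le G v
  omega

/-- The upper bound for a given number of changes. -/
theorem upper_alt (j : ℕ) : ∃ C : ℝ, 0 < C ∧
    ∀ (k t n : ℕ) (G : SimpleGraph (Fin n)), NoMono G k → alt G ≤ t * n →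
      (n : ℝ) ≤ (2 * ((t : ℝ) + 1)) ^ j * exp (C * (k : ℝ) ^ ((1 : ℝ) / ((j : ℝ) + 1))) := by
  obtain ⟨C, hC, h⟩ := upperS j
  refine ⟨C + 1, by linarith, ?_⟩
  intro k t n G hG halt
  have hk := pos_of_noMono hG
  have hk' : (1 : ℝ) ≤ k := by exact_mod_cast hk
  set S : Finset (Fin n) := Finset.univ.filter (fun v => rowAlt G v ≤ 2 * t) with hS
  have h1 : (Finset.univ.filter (fun v : Fin n => ¬ rowAlt G v ≤ 2 * t)).card * (2 * t + 1) ≤
      alt G := by
    calc (Finset.univ.filter (fun v : Fin n => ¬ rowAlt G v ≤ 2 * t)).card * (2 * t + 1) =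
          ∑ v ∈ Finset.univ.filter (fun v : Fin n => ¬ rowAlt G v ≤ 2 * t), (2 * t + 1) := by
          rw [sum_const, smul_eq_mul]
      _ ≤ ∑ v ∈ Finset.univ.filter (fun v : Fin n => ¬ rowAlt G v ≤ 2 * t), rowAlt G v := by
          refine sum_le_sum (fun v hv => ?_)
          have := (mem_filter.1 hv).2
          omega
      _ ≤ alt G := sum_le_univ_sum_of_nonneg (fun v => Nat.zero_le _)
  have h2 : S.card + (Finset.univ.filter (fun v : Fin n => ¬ rowAlt G v ≤ 2 * t)).card = n := by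
    rw [hS, Finset.card_filter_add_card_filter_not, card_univ, Fintype.card_fin]
  have h3 : n ≤ 2 * S.card := by
    by_contra hcon
    push Not at hcon
    set y := (Finset.univ.filter (fun v : Fin n => ¬ rowAlt G v ≤ 2 * t)).card with hy
    have h4 : n + 1 ≤ 2 * y := by omega
    have h5 : y * (2 * t + 1) ≤ t * n := h1.trans halt
    have h6 : (n + 1) * (2 * t + 1) ≤ 2 * y * (2 * t + 1) := Nat.mul_le_mul_right _ h4
    nlinarith
  have h4 := h n G S (2 * ((t : ℝ) + 1)) k (by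
      have : (0 : ℝ) ≤ t := Nat.cast_nonneg t
      linarith) hk (fun v hv => by
      have h5 : (rowAlt G v : ℝ) ≤ 2 * t := by exact_mod_cast (mem_filter.1 hv).2
      linarith) hG.1 hG.2
  have h5 : (n : ℝ) ≤ 2 * S.card := by exact_mod_cast h3
  set z : ℝ := (k : ℝ) ^ ((1 : ℝ) / ((j : ℝ) + 1)) with hz
  have hz1 : 1 ≤ z := one_le_rpow hk' (by positivity)
  have h6 : (2 : ℝ) ≤ exp z := by
    have := add_one_le_exp z
    linarith
  have h7 : exp ((C + 1) * z) = exp (C * z) * exp z := by rw [← exp_add]; ring_nf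
  rw [h7]
  calc (n : ℝ) ≤ 2 * S.card := h5
    _ ≤ 2 * ((2 * ((t : ℝ) + 1)) ^ j * exp (C * z)) := by linarith
    _ = (2 * ((t : ℝ) + 1)) ^ j * (exp (C * z) * 2) := by ring
    _ ≤ (2 * ((t : ℝ) + 1)) ^ j * (exp (C * z) * exp z) := by
      apply mul_le_mul_of_nonneg_left _ (by positivity)
      exact mul_le_mul_of_nonneg_left h6 (exp_pos _).le

theorem altOrder_le {k t : ℕ} {B : ℝ} (hB : 0 ≤ B)
    (h : ∀ (n : ℕ) (G : SimpleGraph (Fin n)), NoMono G k → alt G ≤ t * n → (n : ℝ) ≤ B) :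
    (altOrder k t : ℝ) ≤ B := by
  refine sSup_le_real (bdd_alt k t) hB ?_
  rintro n ⟨G, h1, h2⟩
  exact h n G h1 h2

theorem upper_altOrder (j : ℕ) : ∃ C : ℝ, 0 < C ∧ ∀ k t : ℕ, (altOrder k t : ℝ) ≤
    (2 * ((t : ℝ) + 1)) ^ j * exp (C * (k : ℝ) ^ ((1 : ℝ) / ((j : ℝ) + 1))) := by
  obtain ⟨C, hC, h⟩ := upper_alt j
  exact ⟨C, hC, fun k t => altOrder_le (by positivity) (fun n G h1 h2 => h k t n G h1 h2)⟩

/-- The lower bound. -/
theorem lower_row (j k t : ℕ) (hj : 1 ≤ j) (ht : 2 * j ≤ t)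
    (hk : (2 * Nat.log 2 (t / j) + 1) ^ j < k) :
    ((t : ℝ) / (2 * j)) ^ j ≤ rowOrder k t := by
  obtain ⟨i, rfl⟩ : ∃ i, j = i + 1 := ⟨j - 1, by omega⟩
  have htj : 2 ≤ t / (i + 1) := (Nat.le_div_iff_mul_le (by omega)).2 ht
  have hm : 1 ≤ Nat.log 2 (t / (i + 1)) := Nat.log_pos (by norm_num) htj
  have hl := Nat.pow_log_le_self 2 (show t / (i + 1) ≠ 0 by omega)
  have hu := Nat.lt_pow_succ_log_self (show 1 < 2 by norm_num) (t / (i + 1))
  set m := Nat.log 2 (t / (i + 1)) with hmdef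
  obtain ⟨n, G, hn, g1, g2⟩ := powerR m hm i
  have hrow : ∀ v, rowAlt G v ≤ t := by
    intro v
    refine (g2 v).trans ?_
    calc (i + 1) * 2 ^ m ≤ (i + 1) * (t / (i + 1)) := Nat.mul_le_mul_left _ hl
      _ ≤ t := Nat.mul_div_le t (i + 1)
  have h1 : n ≤ rowOrder k t := le_csSup (bdd_row k t) ⟨G, g1.mono (by omega), hrow⟩
  have h2 : (t : ℝ) / (2 * ((i + 1 : ℕ) : ℝ)) ≤ ((2 ^ m : ℕ) : ℝ) := by
    rw [div_le_iff₀ (by positivity)]
    have h3 : t < (i + 1) * 2 ^ (m + 1) := by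
      have h4 := Nat.lt_mul_div_succ t (show 0 < i + 1 by omega)
      calc t < (i + 1) * (t / (i + 1) + 1) := h4
        _ ≤ (i + 1) * 2 ^ (m + 1) := Nat.mul_le_mul_left _ hu
    have h5 : (t : ℝ) ≤ ((i + 1 : ℕ) : ℝ) * 2 ^ (m + 1) := by exact_mod_cast h3.le
    calc (t : ℝ) ≤ ((i + 1 : ℕ) : ℝ) * 2 ^ (m + 1) := h5
      _ = ((2 ^ m : ℕ) : ℝ) * (2 * ((i + 1 : ℕ) : ℝ)) := by push_cast; ring
  calc ((t : ℝ) / (2 * ((i + 1 : ℕ) : ℝ))) ^ (i + 1) ≤ ((2 ^ m : ℕ) : ℝ) ^ (i + 1) :=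
        pow_le_pow_left₀ (by positivity) h2 _
    _ = (n : ℝ) := by rw [hn]; push_cast; ring
    _ ≤ rowOrder k t := by exact_mod_cast h1

theorem upper_one : ∃ C : ℝ, 0 < C ∧ ∀ k t : ℕ,
    (altOrder k t : ℝ) ≤ 2 * ((t : ℝ) + 1) * exp (C * Real.sqrt k) := by
  obtain ⟨C, hC, h⟩ := upper_altOrder 1
  refine ⟨C, hC, fun k t => ?_⟩
  have := h k t
  rw [pow_one, Nat.cast_one, one_add_one_eq_two, ← sqrt_eq_rpow] at this
  exact this

/-- Exact growth, upper half. -/
theorem growth_up (θ : ℝ) (j : ℕ) : ∃ C D : ℝ, ∀ N : ℕ → ℕ,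
    (∀ k, N k ≤ altOrder k ⌊exp ((k : ℝ) ^ θ)⌋₊) → ∀ k : ℕ, log (N k) ≤ j * (k : ℝ) ^ θ + D +
      C * (k : ℝ) ^ ((1 : ℝ) / ((j : ℝ) + 1)) := by
  obtain ⟨C, hC, h⟩ := upper_altOrder j
  refine ⟨C, j * log 4, fun N hN k => ?_⟩
  have hx0 : 0 ≤ (k : ℝ) ^ θ := by positivity
  have h1 : (⌊exp ((k : ℝ) ^ θ)⌋₊ : ℝ) ≤ exp ((k : ℝ) ^ θ) := Nat.floor_le (exp_pos _).le
  have h2 : (1 : ℝ) ≤ exp ((k : ℝ) ^ θ) := one_le_exp hx0
  refine log_upper (W := 2 * ((⌊exp ((k : ℝ) ^ θ)⌋₊ : ℝ) + 1)) hx0 (by positivity)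
    (by positivity) (by linarith) ?_
  refine le_trans ?_ (h k _)
  exact_mod_cast hN k

/-- Exact growth. -/
theorem growth (θ : ℝ) (h0 : 0 < θ) (j : ℕ) (hj1 : 1 ≤ j) (hj2 : θ * j < 1)
    (hj3 : 1 < θ * (j + 1)) (N : ℕ → ℕ)
    (hN1 : ∀ k, rowOrder k ⌊exp ((k : ℝ) ^ θ)⌋₊ ≤ N k)
    (hN2 : ∀ k, N k ≤ altOrder k ⌊exp ((k : ℝ) ^ θ)⌋₊) :
    Tendsto (fun k : ℕ => log (N k) / (k : ℝ) ^ θ) atTop (𝓝 (j : ℝ)) := by
  obtain ⟨C, D, hup⟩ := growth_up θ j
  have hx : Tendsto (fun k : ℕ => (k : ℝ) ^ θ) atTop atTop :=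
    (tendsto_rpow_atTop h0).comp tendsto_natCast_atTop_atTop
  have hj0 : (1 : ℝ) ≤ j := by exact_mod_cast hj1
  set D' : ℝ := max D (j * log (4 * j)) with hD'
  refine squeeze N (fun k => (k : ℝ) ^ θ)
    (fun k => (k : ℝ) ^ ((1 : ℝ) / ((j : ℝ) + 1))) j C D' hx (e_div θ j hj3) ?_ ?_
  · refine Eventually.of_forall (fun k => ?_)
    have := hup N hN2 k
    have := le_max_left D (j * log (4 * j))
    linarith
  · filter_upwards [cond_low θ h0 j hj2, hx.eventually_ge_atTop (2 * j)] with k hk hk2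
    have h1 : (⌊exp ((k : ℝ) ^ θ)⌋₊ : ℝ) ≤ exp ((k : ℝ) ^ θ) := Nat.floor_le (exp_pos _).le
    have h3 := Nat.lt_floor_add_one (exp ((k : ℝ) ^ θ))
    have h4 := add_one_le_exp ((k : ℝ) ^ θ)
    set t := ⌊exp ((k : ℝ) ^ θ)⌋₊ with ht
    have h5 : 2 * j ≤ t := Nat.le_floor (by push_cast; linarith)
    have htj : t / j ≠ 0 := by
      have : 2 ≤ t / j := (Nat.le_div_iff_mul_le (by omega)).2 h5
      omega
    have h6 := lower_row j k t hj1 h5 (hk (t / j) htj (by
      have h7 : ((t / j : ℕ) : ℝ) ≤ t := by exact_mod_cast Nat.div_le_self t j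
      linarith [exp_pos ((k : ℝ) ^ θ)]))
    have h7 : ((t : ℝ) / (2 * j)) ^ j ≤ N k := h6.trans (by exact_mod_cast hN1 k)
    have h8 : exp ((k : ℝ) ^ θ) / (4 * j) ≤ (t : ℝ) / (2 * j) := by
      rw [div_le_div_iff₀ (by positivity) (by positivity)]
      have : exp ((k : ℝ) ^ θ) ≤ 2 * t := by linarith
      nlinarith
    have h9 : (exp ((k : ℝ) ^ θ) / (4 * j)) ^ j ≤ N k :=
      (pow_le_pow_left₀ (by positivity) h8 _).trans h7
    have h10 := log_le_log (by positivity) h9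
    rw [log_pow, log_div (exp_pos _).ne' (by positivity), log_exp] at h10
    have := le_max_right D (j * log (4 * j))
    have : (j : ℝ) * ((k : ℝ) ^ θ - log (4 * j)) = j * (k : ℝ) ^ θ - j * log (4 * j) := by ring
    linarith

/-- The growth rate. -/
theorem rate (lam : ℝ) (h0 : 0 < lam) (h1 : lam ≤ log 2 / 2) (N : ℕ → ℕ)
    (hN1 : ∀ k, rowOrder k ⌊exp (lam * k)⌋₊ ≤ N k)
    (hN2 : ∀ k, N k ≤ altOrder k ⌊exp (lam * k)⌋₊) :
    Tendsto (fun k : ℕ => log (N k) / k) atTop (𝓝 lam) := by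
  obtain ⟨C, hC, h⟩ := upper_one
  have hx : Tendsto (fun k : ℕ => lam * (k : ℝ)) atTop atTop :=
    tendsto_natCast_atTop_atTop.const_mul_atTop h0
  have key := squeeze N (fun k => lam * k)
    (fun k => Real.sqrt k) 1 C 2 hx (sqrt_div lam h0) ?_ ?_
  · rw [Nat.cast_one] at key
    have h2 := key.mul_const lam
    rw [one_mul] at h2
    refine h2.congr' ?_
    filter_upwards [eventually_ge_atTop 1] with k hk
    have hkpos : (0 : ℝ) < k := by exact_mod_cast hk
    field_simp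
  · refine Eventually.of_forall (fun k => ?_)
    have hx0 : 0 ≤ lam * (k : ℝ) := by positivity
    have h1 : (⌊exp (lam * k)⌋₊ : ℝ) ≤ exp (lam * k) := Nat.floor_le (exp_pos _).le
    have h2 : (1 : ℝ) ≤ exp (lam * k) := one_le_exp hx0
    have h3 := log_upper (N := N k) (j := 1)
      (W := 2 * ((⌊exp (lam * k)⌋₊ : ℝ) + 1)) (x := lam * k) (y := C * Real.sqrt k) hx0
      (by positivity) (by positivity) (by linarith) (by
        rw [pow_one]
        refine le_trans ?_ (h k _)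
        exact_mod_cast hN2 k)
    have h4 : log 4 ≤ 2 := by
      have h5 : log 4 = 2 * log 2 := by
        rw [show (4 : ℝ) = 2 ^ 2 by norm_num, log_pow]
        norm_num
      have := log_two_lt_d9
      linarith
    push_cast at h3 ⊢
    linarith
  · filter_upwards [eventually_ge_atTop 4] with k hk
    have hkpos : (0 : ℝ) < k := by
      have : 0 < k := by omega
      exact_mod_cast this
    have hr := ramsey_lower k hk
    have hmin : min (⌊exp (lam * k)⌋₊ + 2) (ramsey k - 1) ≤ N k :=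
      (min_le_row k _ (by omega)).trans (hN1 k)
    have h3 := Nat.lt_floor_add_one (exp (lam * k))
    have hr1 : 1 ≤ ramsey k := by
      have : (1 : ℝ) ≤ ramsey k := by linarith [exp_pos (log 2 / 2 * k - 2)]
      exact_mod_cast this
    have h4 : exp (lam * k - 2) ≤ (N k : ℝ) := by
      have h5 : exp (lam * k - 2) ≤ min ((⌊exp (lam * k)⌋₊ : ℝ) + 2) ((ramsey k : ℝ) - 1) := by
        apply le_min
        · have h6 : exp (lam * k - 2) ≤ exp (lam * k) := exp_le_exp.2 (by linarith)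
          linarith
        · refine le_trans (exp_le_exp.2 ?_) hr
          have := mul_le_mul_of_nonneg_right h1 hkpos.le
          linarith
      refine h5.trans ?_
      have h6 : (((min (⌊exp (lam * k)⌋₊ + 2) (ramsey k - 1)) : ℕ) : ℝ) ≤ N k := by
        exact_mod_cast hmin
      rw [Nat.cast_min, Nat.cast_sub hr1] at h6
      push_cast at h6
      exact h6
    have h5 := log_le_log (exp_pos _) h4
    rw [log_exp] at h5
    push_cast
    linarith

/-- Colourings without monochromatic `K_k` have many changes in every order. -/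
theorem many_changes : ∃ C : ℝ, 0 < C ∧ ∀ (k n : ℕ) (G : SimpleGraph (Fin n)), NoMono G k →
    (n : ℝ) ^ 2 ≤ ((alt G : ℝ) + n) * exp (C * Real.sqrt k) := by
  obtain ⟨C, hC, h⟩ := upper_alt 1
  refine ⟨C + 2, by linarith, fun k n G hG => ?_⟩
  have hk := pos_of_noMono hG
  have hk' : (1 : ℝ) ≤ k := by exact_mod_cast hk
  have hs1 : 1 ≤ Real.sqrt k := by
    rw [Real.one_le_sqrt]
    exact hk'
  rcases Nat.eq_zero_or_pos n with rfl | hn
  · have h0 : (((0 : ℕ) : ℝ)) ^ 2 = 0 := by norm_num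
    rw [h0]
    positivity
  have hn' : (0 : ℝ) < n := by exact_mod_cast hn
  have h1 : alt G ≤ (alt G / n + 1) * n := by
    have := Nat.lt_mul_div_succ (alt G) hn
    rw [mul_comm]
    exact this.le
  have h2 := h k (alt G / n + 1) n G hG h1
  rw [pow_one, Nat.cast_one, one_add_one_eq_two, ← sqrt_eq_rpow] at h2
  have h3 : (((alt G / n + 1 : ℕ) : ℝ) + 1) * n ≤ alt G + 2 * n := by
    have h4 : (alt G / n) * n ≤ alt G := Nat.div_mul_le_self _ _
    have h5 : (((alt G / n : ℕ) : ℝ)) * n ≤ alt G := by exact_mod_cast h4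
    push_cast
    nlinarith
  have h4 : exp ((C + 2) * Real.sqrt k) = exp (C * Real.sqrt k) * exp (2 * Real.sqrt k) := by
    rw [← exp_add]
    ring_nf
  have h5 : (4 : ℝ) ≤ exp (2 * Real.sqrt k) := by
    have h6 : (2 : ℝ) ≤ exp (Real.sqrt k) := by
      have := add_one_le_exp (Real.sqrt k)
      linarith
    have h7 : exp (2 * Real.sqrt k) = exp (Real.sqrt k) * exp (Real.sqrt k) := by
      rw [← exp_add]
      ring_nf
    rw [h7]
    nlinarith
  rw [h4]
  have hE := exp_pos (C * Real.sqrt k)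
  have ha : (0 : ℝ) ≤ alt G := Nat.cast_nonneg _
  calc (n : ℝ) ^ 2 = n * n := by ring
    _ ≤ (2 * (((alt G / n + 1 : ℕ) : ℝ) + 1) * exp (C * Real.sqrt k)) * n :=
      mul_le_mul_of_nonneg_right h2 hn'.le
    _ = 2 * ((((alt G / n + 1 : ℕ) : ℝ) + 1) * n) * exp (C * Real.sqrt k) := by ring
    _ ≤ 2 * (alt G + 2 * n) * exp (C * Real.sqrt k) := by
      apply mul_le_mul_of_nonneg_right _ hE.le
      linarith
    _ ≤ (((alt G : ℝ) + n) * 4) * exp (C * Real.sqrt k) := by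
      apply mul_le_mul_of_nonneg_right _ hE.le
      linarith
    _ ≤ (((alt G : ℝ) + n) * exp (2 * Real.sqrt k)) * exp (C * Real.sqrt k) := by
      apply mul_le_mul_of_nonneg_right _ hE.le
      exact mul_le_mul_of_nonneg_left h5 (by positivity)
    _ = _ := by ring

/-- The number of changes can be that small. -/
theorem few_changes : ∀ k : ℕ, 1000 ≤ k → ∃ (n : ℕ) (G : SimpleGraph (Fin n)), NoMono G k ∧
    exp (Real.sqrt k / 10) ≤ n ∧ ∀ v, (rowAlt G v : ℝ) ≤ n * exp (-(Real.sqrt k / 10)) := by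
  intro k hk
  set q := Nat.sqrt (k - 1) with hq
  set m := (q - 1) / 2 with hm
  have hq1 : q * q ≤ k - 1 := Nat.sqrt_le (k - 1)
  have hq2 : k - 1 < (q + 1) * (q + 1) := Nat.lt_succ_sqrt (k - 1)
  have hq3 : 31 ≤ q := by
    by_contra hcon
    push Not at hcon
    have : (q + 1) * (q + 1) ≤ 31 * 31 := Nat.mul_le_mul (by omega) (by omega)
    omega
  have hm1 : 15 ≤ m := by omega
  obtain ⟨n, G, hn, g1, g2⟩ := powerR m (by omega) 1
  have hkm : (2 * m + 1) ^ (1 + 1) + 1 ≤ k := by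
    have h1 : 2 * m + 1 ≤ q := by omega
    have h2 : (2 * m + 1) * (2 * m + 1) ≤ q * q := Nat.mul_le_mul h1 h1
    have h3 : (2 * m + 1) ^ (1 + 1) = (2 * m + 1) * (2 * m + 1) := by ring
    omega
  have hsq : Real.sqrt k ≤ 2 * m + 3 := by
    rw [Real.sqrt_le_left (by positivity)]
    have h1 : k ≤ (2 * m + 3) * (2 * m + 3) := by
      have h2 : q + 1 ≤ 2 * m + 3 := by omega
      have h3 : (q + 1) * (q + 1) ≤ (2 * m + 3) * (2 * m + 3) := Nat.mul_le_mul h2 h2
      omega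
    have h4 : (k : ℝ) ≤ (2 * m + 3) * (2 * m + 3) := by exact_mod_cast h1
    rw [sq]
    exact h4
  have hm1' : (15 : ℝ) ≤ m := by exact_mod_cast hm1
  have hlog : (0.69 : ℝ) < log 2 := by
    have := log_two_gt_d9
    linarith
  have hn' : (n : ℝ) = exp (2 * m * log 2) := by
    rw [hn]
    push_cast
    rw [← pow_mul, ← exp_log (show (0 : ℝ) < 2 by norm_num), ← exp_nat_mul,
      exp_log (by norm_num)]
    congr 1
    push_cast
    ring
  have h2m : ((2 ^ m : ℕ) : ℝ) = exp (m * log 2) := by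
    push_cast
    rw [← exp_log (show (0 : ℝ) < 2 by norm_num), ← exp_nat_mul, exp_log (by norm_num)]
  refine ⟨n, G, g1.mono hkm, ?_, fun v => ?_⟩
  · rw [hn']
    apply exp_le_exp.2
    nlinarith
  · have h1 : (rowAlt G v : ℝ) ≤ 2 * exp (m * log 2) := by
      rw [← h2m]
      have := g2 v
      have h2 : (rowAlt G v : ℝ) ≤ (((1 + 1) * 2 ^ m : ℕ) : ℝ) := by exact_mod_cast this
      push_cast at h2 ⊢
      linarith
    refine h1.trans ?_
    have h3 : (2 : ℝ) = exp (log 2) := (exp_log (by norm_num)).symm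
    rw [hn', ← exp_add]
    calc 2 * exp (m * log 2) = exp (log 2 + m * log 2) := by rw [exp_add, ← h3]
      _ ≤ exp (2 * m * log 2 + -(Real.sqrt k / 10)) := by
        apply exp_le_exp.2
        nlinarith

end Pool.Agent.Run7.h614.RA
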