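import Pool.Agent.Run7.h614.RA.Upper
import Pool.Agent.N920.TW.Asym

/-!
# Lexicographic products in the lexicographic order
-/

namespace Pool.Agent.Run7.h614.RA

open Finset Real

open Classical

open Pool.Agent.Y422.TW Pool.Agent.N920.TW

/-- The lexicographic product on an initial segment, in the lexicographic order. -/
def lexFin {N M : ℕ} (G : SimpleGraph (Fin N)) (H : SimpleGraph (Fin M)) :
    SimpleGraph (Fin (N * M)) :=
  (lex G H).comap finProdFinEquiv.symm

theorem lexFin_adj {N M : ℕ} (G : SimpleGraph (Fin N)) (H : SimpleGraph (Fin M))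
    (v w : Fin (N * M)) : (lexFin G H).Adj v w ↔
      G.Adj v.divNat w.divNat ∨ (v.divNat = w.divNat ∧ H.Adj v.modNat w.modNat) := Iff.rfl

theorem lexFin_noMono {N M a b : ℕ} (G : SimpleGraph (Fin N)) (H : SimpleGraph (Fin M))
    (hG : NoMono G (a + 1)) (hH : NoMono H (b + 1)) : NoMono (lexFin G H) (a * b + 1) := by
  have h : NoMono (lex G H) (a * b + 1) := by
    refine ⟨lex_cliqueFree G H hG.1 hH.1, ?_⟩
    rw [lex_compl]
    exact lex_cliqueFree Gᶜ Hᶜ hG.2 hH.2
  exact h.comap finProdFinEquiv.symm.toEmbedding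

theorem rowAlt_lexFin {N M : ℕ} (G : SimpleGraph (Fin N)) (H : SimpleGraph (Fin M))
    (v : Fin (N * M)) : rowAlt (lexFin G H) v ≤ N + rowAlt H v.modNat := by
  rw [rowAlt]
  -- changes between blocks
  set E : Finset (Fin (N * M)) := Finset.univ.filter
    (fun w => ((w : ℕ) + 1) / M ≠ (w : ℕ) / M) with hE
  set I : Finset (Fin (N * M)) := (rowSet (lexFin G H) v).filter
    (fun w => ((w : ℕ) + 1) / M = (w : ℕ) / M) with hI
  have hsub : rowSet (lexFin G H) v ⊆ E ∪ I := by
    intro w hw
    by_cases h : ((w : ℕ) + 1) / M = (w : ℕ) / M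
    · exact mem_union_right _ (mem_filter.2 ⟨hw, h⟩)
    · exact mem_union_left _ (mem_filter.2 ⟨mem_univ _, h⟩)
  have hMpos : 0 < M := by
    rcases Nat.eq_zero_or_pos M with h | h
    · subst h
      exact absurd v.2 (by simp)
    · exact h
  have hEcard : E.card ≤ N := by
    have : E.card ≤ (Finset.univ : Finset (Fin N)).card := by
      refine Finset.card_le_card_of_injOn (fun w => w.divNat) (fun _ _ => mem_coe.2 (mem_univ _)) ?_
      intro w hw w' hw' hww
      have h1 : ((w : ℕ) + 1) / M ≠ (w : ℕ) / M := (mem_filter.1 hw).2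
      have h2 : ((w' : ℕ) + 1) / M ≠ (w' : ℕ) / M := (mem_filter.1 hw').2
      have h3 : (w : ℕ) / M = (w' : ℕ) / M := congrArg Fin.val hww
      apply Fin.ext
      -- both are the last element of their block
      have key : ∀ x : ℕ, (x + 1) / M ≠ x / M → x = (x / M) * M + (M - 1) := by
        intro x hx
        have e1 := Nat.div_add_mod x M
        have e2 := Nat.mod_lt x hMpos
        by_contra hne
        have e3 : x % M + 1 < M := by
          have : x % M ≠ M - 1 := by
            intro h
            apply hne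
            rw [mul_comm]
            omega
          omega
        apply hx
        have e4 : x + 1 = M * (x / M) + (x % M + 1) := by omega
        rw [e4, Nat.mul_add_div hMpos, Nat.div_eq_of_lt e3, add_zero]
      rw [key _ h1, key _ h2, h3]
    rwa [card_univ, Fintype.card_fin] at this
  have hIcard : I.card ≤ (rowSet H v.modNat).card := by
    have hmem : ∀ w ∈ I, (w : ℕ) / M = (v : ℕ) / M ∧ w.modNat ∈ rowSet H v.modNat := by
      intro w hw
      obtain ⟨hw1, hw2⟩ := mem_filter.1 hw
      rw [rowSet, mem_filter] at hw1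
      obtain ⟨-, hvw, h, hne⟩ := hw1
      have hvw' : (v : ℕ) < w := hvw
      set w' : Fin (N * M) := ⟨w + 1, h⟩ with hw'
      have hdiv : w'.divNat = w.divNat := Fin.ext hw2
      have e1 := Nat.div_add_mod (w : ℕ) M
      have e2 := Nat.div_add_mod ((w : ℕ) + 1) M
      rw [hw2] at e2
      have emod : ((w : ℕ) + 1) % M = (w : ℕ) % M + 1 := by omega
      have elt := Nat.mod_lt ((w : ℕ) + 1) hMpos
      have hdv : (w : ℕ) / M = (v : ℕ) / M := by
        by_contra hcon
        apply hne
        rw [lexFin_adj, lexFin_adj, hdiv]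
        have hvd : v.divNat ≠ w.divNat := fun h => hcon (congrArg Fin.val h).symm
        simp [hvd]
      refine ⟨hdv, ?_⟩
      rw [rowSet, mem_filter]
      have e3 := Nat.div_add_mod (v : ℕ) M
      rw [← hdv] at e3
      refine ⟨mem_univ _, ?_, ?_, ?_⟩
      · show (v : ℕ) % M < (w : ℕ) % M
        omega
      · show (w : ℕ) % M + 1 < M
        omega
      · intro hiff
        apply hne
        rw [lexFin_adj, lexFin_adj, hdiv]
        have hvd : v.divNat = w.divNat := Fin.ext hdv.symm
        have hmod : w'.modNat = ⟨(w.modNat : ℕ) + 1, (by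
            show (w : ℕ) % M + 1 < M
            omega)⟩ := Fin.ext emod
        have hirr : ¬ G.Adj w.divNat w.divNat := G.loopless.irrefl _
        rw [hmod]
        simp only [hirr, hvd, false_or, true_and]
        exact hiff
    refine Finset.card_le_card_of_injOn (fun w => w.modNat) (fun w hw => (hmem w hw).2) ?_
    intro w hw w' hw' hww
    have h1 := (hmem w hw).1
    have h2 := (hmem w' hw').1
    have h3 : (w : ℕ) % M = (w' : ℕ) % M := congrArg Fin.val hww
    apply Fin.ext
    rw [← Nat.div_add_mod (w : ℕ) M, ← Nat.div_add_mod (w' : ℕ) M, h1, h2, h3]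
  calc (rowSet (lexFin G H) v).card ≤ (E ∪ I).card := card_le_card hsub
    _ ≤ E.card + I.card := card_union_le _ _
    _ ≤ N + (rowSet H v.modNat).card := Nat.add_le_add hEcard hIcard

theorem rowAlt_le {n : ℕ} (G : SimpleGraph (Fin n)) (v : Fin n) : rowAlt G v ≤ n - 2 := by
  rw [rowAlt]
  have h : (rowSet G v).card ≤ (Finset.range (n - 2)).card := by
    refine Finset.card_le_card_of_injOn (fun w => (w : ℕ) - 1) ?_ ?_
    · intro w hw
      rw [mem_coe, rowSet, mem_filter] at hw
      obtain ⟨-, h1, h2, -⟩ := hw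
      have h3 : (v : ℕ) < w := h1
      rw [mem_coe, mem_range]
      show (w : ℕ) - 1 < n - 2
      omega
    · intro w hw w' hw' hww
      rw [mem_coe, rowSet, mem_filter] at hw hw'
      obtain ⟨-, h1, -, -⟩ := hw
      obtain ⟨-, h1', -, -⟩ := hw'
      have h3 : (v : ℕ) < w := h1
      have h3' : (v : ℕ) < w' := h1'
      have h4 : (w : ℕ) - 1 = (w' : ℕ) - 1 := hww
      apply Fin.ext
      omega
  rwa [card_range] at h

/-- Lexicographic powers of random graphs have few changes in the rows. -/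
theorem powerR (m : ℕ) (hm : 1 ≤ m) (j : ℕ) :
    ∃ (n : ℕ) (G : SimpleGraph (Fin n)), n = (2 ^ m) ^ (j + 1) ∧
      NoMono G ((2 * m + 1) ^ (j + 1) + 1) ∧ ∀ v, rowAlt G v ≤ (j + 1) * 2 ^ m := by
  obtain ⟨G0, h1, h2⟩ := erdos m hm
  induction j with
  | zero =>
    refine ⟨2 ^ m, G0, by simp, ⟨?_, ?_⟩, fun v => ?_⟩
    · simpa using h1
    · simpa using h2
    · have := rowAlt_le G0 v
      omega
  | succ j ih =>
    obtain ⟨n, G, rfl, g1, g2⟩ := ih
    refine ⟨2 ^ m * (2 ^ m) ^ (j + 1), lexFin G0 G, by ring, ?_, fun v => ?_⟩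
    · have := lexFin_noMono (a := 2 * m + 1) (b := (2 * m + 1) ^ (j + 1)) G0 G ⟨h1, h2⟩ g1
      have e : (2 * m + 1) ^ (j + 1 + 1) + 1 = (2 * m + 1) * (2 * m + 1) ^ (j + 1) + 1 := by ring
      rw [e]
      exact this
    · calc rowAlt (lexFin G0 G) v ≤ 2 ^ m + rowAlt G v.modNat := rowAlt_lexFin G0 G v
        _ ≤ 2 ^ m + (j + 1) * 2 ^ m := Nat.add_le_add_left (g2 _) _
        _ = (j + 1 + 1) * 2 ^ m := by ring

end Pool.Agent.Run7.h614.RA
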