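import Pool.Agent.Run7.h614.RA.Core

/-!
# The upper bound
-/

namespace Pool.Agent.Run7.h614.RA

open Finset Real

open Classical

open Pool.Agent.Y422.TW

variable {V : Type*}

/-- The potential lemma with losses. -/
theorem potentialL (G : SimpleGraph V) (S : Finset V) (D μ ν γ : ℝ) (hD : 0 ≤ D) (hγ : 0 < γ)
    (hμ : 0 ≤ μ) (hν : 0 ≤ ν)
    (hpair : ∀ U : Finset V, U ⊆ S → D < U.card → ∃ A R B : Finset V, A ⊆ U ∧ R ⊆ U ∧ B ⊆ U ∧
      A.Nonempty ∧ (∀ a ∈ A, ∀ r ∈ R, G.Adj a r) ∧ (∀ a ∈ A, ∀ b ∈ B, Gᶜ.Adj a b) ∧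
      γ * (U.card : ℝ) ≤ R.card + B.card ∧
      exp (-(μ * w G A)) + exp (-(ν * w Gᶜ A)) ≤ γ) (U : Finset V) (hUS : U ⊆ S) :
    (U.card : ℝ) ≤ D * exp (μ * w G U + ν * w Gᶜ U) := by
  induction U using Finset.strongInduction with
  | H U ih =>
    by_cases hU : (U.card : ℝ) ≤ D
    · have h1 : (1 : ℝ) ≤ exp (μ * w G U + ν * w Gᶜ U) :=
        one_le_exp (by positivity)
      have h2 : D * 1 ≤ D * exp (μ * w G U + ν * w Gᶜ U) :=
        mul_le_mul_of_nonneg_left h1 hD
      linarith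
    · push Not at hU
      obtain ⟨A, R, B, hA, hR, hB, ⟨a0, ha0⟩, hAR, hAB, hcard, hexp⟩ := hpair U hUS hU
      have hRss : R ⊂ U := by
        refine hR.ssubset_of_ne ?_
        rintro rfl
        exact G.loopless.irrefl a0 (hAR a0 ha0 a0 (hA ha0))
      have hBss : B ⊂ U := by
        refine hB.ssubset_of_ne ?_
        rintro rfl
        exact Gᶜ.loopless.irrefl a0 (hAB a0 ha0 a0 (hA ha0))
      have ihR := ih R hRss (hR.trans hUS)
      have ihB := ih B hBss (hB.trans hUS)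
      have e1 : (w G A : ℝ) + w G R ≤ w G U := by exact_mod_cast w_add G hA hR hAR
      have e2 : (w Gᶜ A : ℝ) + w Gᶜ B ≤ w Gᶜ U := by exact_mod_cast w_add Gᶜ hA hB hAB
      have e3 : (w Gᶜ R : ℝ) ≤ w Gᶜ U := by exact_mod_cast w_mono Gᶜ hR
      have e4 : (w G B : ℝ) ≤ w G U := by exact_mod_cast w_mono G hB
      set M := μ * w G U + ν * w Gᶜ U with hM
      have f1 : exp (μ * w G R + ν * w Gᶜ R) ≤ exp M * exp (-(μ * w G A)) := by
        rw [← exp_add]
        apply exp_le_exp.2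
        have := mul_le_mul_of_nonneg_left e1 hμ
        have := mul_le_mul_of_nonneg_left e3 hν
        rw [hM]
        nlinarith
      have f2 : exp (μ * w G B + ν * w Gᶜ B) ≤ exp M * exp (-(ν * w Gᶜ A)) := by
        rw [← exp_add]
        apply exp_le_exp.2
        have := mul_le_mul_of_nonneg_left e2 hν
        have := mul_le_mul_of_nonneg_left e4 hμ
        rw [hM]
        nlinarith
      have f3 : exp M * exp (-(μ * w G A)) + exp M * exp (-(ν * w Gᶜ A)) ≤ exp M * γ := by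
        have := mul_le_mul_of_nonneg_left hexp (exp_pos M).le
        linarith
      have g1 := mul_le_mul_of_nonneg_left f1 hD
      have g2 := mul_le_mul_of_nonneg_left f2 hD
      have g3 := mul_le_mul_of_nonneg_left f3 hD
      have g4 : γ * (U.card : ℝ) ≤ γ * (D * exp M) := by nlinarith
      exact le_of_mul_le_mul_left g4 hγ

/-- One half of the step. -/
theorem stepL_half {n : ℕ} (G : SimpleGraph (Fin n)) {S : Finset (Fin n)} {T s c Y K : ℝ} {j : ℕ}
    (hT : 1 ≤ T) (hrow : ∀ v ∈ S, (rowAlt G v : ℝ) ≤ T) (hs : 1 ≤ s) (hY : 1 ≤ Y) (hK : 0 < K)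
    (hKan : ∀ ε η b : ℝ, 0 < ε → 0 ≤ η → 1 ≤ b →
      (∀ a : ℝ, 1 ≤ a → c ≤ a ^ j * ε + exp (-a) * η) →
      (∀ a : ℝ, 1 ≤ a → c ≤ a ^ j * η + exp (-a) * ε) →
      exp (-(K * b ^ (j + 1) * ε)) + exp (-(K * exp (-b) * η)) ≤ 1)
    (H : SimpleGraph (Fin n)) (hH : H = G ∨ H = Gᶜ)
    (hL : ∀ A ⊆ S, s ≤ A.card → Lvl H j c Y A)
    (U : Finset (Fin n)) (hUS : U ⊆ S)
    (hU : 12 * (1 + j.factorial / K) ^ 2 * s * T * exp (5 * Y) ≤ U.card) (b : ℝ) (hb : 1 ≤ b) :
    min 1 (1 / (2 * K)) * Y ^ (j + 1) ≤ b ^ (j + 1) * w H U + exp (-b) * w Hᶜ U := by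
  have hYj : 0 < Y ^ j := by positivity
  have hY0 : 0 < Y := by linarith
  have hUpos : 0 < U.card := by
    have h1 : (0 : ℝ) < 12 * (1 + j.factorial / K) ^ 2 * s * T * exp (5 * Y) := by positivity
    have : (0 : ℝ) < U.card := by linarith
    exact_mod_cast this
  have hwU : (1 : ℝ) ≤ w H U := by exact_mod_cast w_pos H (card_pos.1 hUpos)
  by_cases hbY : Y < b
  · -- large `b`: trivial
    have h1 : Y ^ (j + 1) ≤ b ^ (j + 1) := pow_le_pow_left₀ hY0.le hbY.le _
    have h2 : min 1 (1 / (2 * K)) * Y ^ (j + 1) ≤ 1 * Y ^ (j + 1) :=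
      mul_le_mul_of_nonneg_right (min_le_left _ _) (by positivity)
    have h3 : b ^ (j + 1) * 1 ≤ b ^ (j + 1) * w H U :=
      mul_le_mul_of_nonneg_left hwU (by positivity)
    have h4 : 0 ≤ exp (-b) * w Hᶜ U := by positivity
    linarith
  push Not at hbY
  set g := K * exp (-b) / Y ^ j with hg
  have hgpos : 0 < g := by positivity
  set γ := exp (-g) with hγ
  have hγ1 : γ < 1 := by
    rw [hγ, exp_lt_one_iff]
    linarith
  set x := 1 / (1 - γ) with hx
  have hx1 : 1 ≤ x := by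
    rw [hx, le_div_iff₀ (by linarith)]
    have := exp_pos (-g)
    linarith
  have hxγ : 1 - 1 / x = γ := by
    rw [hx, one_div_one_div]
    ring
  -- the bound for `x`
  have hxb : x ≤ (1 + j.factorial / K) * exp (2 * Y) := by
    have h1 : γ ≤ 1 / (1 + g) := by
      rw [hγ, exp_neg, ← one_div]
      apply one_div_le_one_div_of_le (by linarith)
      linarith [add_one_le_exp g]
    have h2 : g / (1 + g) ≤ 1 - γ := by
      have : g / (1 + g) = 1 - 1 / (1 + g) := by field_simp; ring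
      linarith
    have h3 : x ≤ (1 + g) / g := by
      rw [hx, div_le_div_iff₀ (by linarith) hgpos]
      rw [div_le_iff₀ (by linarith)] at h2
      linarith
    have h4 : (1 + g) / g = 1 + Y ^ j * exp b / K := by
      rw [hg, exp_neg]
      have := exp_pos b
      field_simp
      ring
    have h5 : Y ^ j ≤ j.factorial * exp Y := by
      have := Real.pow_div_factorial_le_exp Y hY0.le j
      rw [div_le_iff₀ (by positivity)] at this
      linarith
    have h6 : exp b ≤ exp Y := exp_le_exp.2 hbY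
    have h7 : Y ^ j * exp b ≤ (j.factorial * exp Y) * exp Y :=
      mul_le_mul h5 h6 (exp_pos _).le (by positivity)
    have h8 : exp Y * exp Y = exp (2 * Y) := by rw [← exp_add]; ring_nf
    have h9 : (1 : ℝ) ≤ exp (2 * Y) := one_le_exp (by linarith)
    calc x ≤ 1 + Y ^ j * exp b / K := by rw [← h4]; exact h3
      _ ≤ 1 + (j.factorial * exp Y) * exp Y / K := by
        have := div_le_div_of_nonneg_right h7 hK.le
        linarith
      _ = 1 + j.factorial / K * exp (2 * Y) := by rw [← h8]; ring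
      _ ≤ (1 + j.factorial / K) * exp (2 * Y) := by nlinarith
  set D := 12 * x ^ 2 * s * T with hD
  have hDpos : 0 < D := by positivity
  have hDs : s ≤ D := by
    have h1 : 1 ≤ x ^ 2 := one_le_pow₀ hx1
    have h2 : 1 ≤ 12 * x ^ 2 * T := by nlinarith
    have h3 : D = s * (12 * x ^ 2 * T) := by rw [hD]; ring
    rw [h3]
    nlinarith
  have hpot := potentialL H S D (2 * (K * b ^ (j + 1) / Y ^ j)) (2 * (K * exp (-b) / Y ^ j)) γ
    hDpos.le (exp_pos _) (by positivity) (by positivity) (by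
      intro U hU hDU
      obtain ⟨A, R, B, h1, h2, h3, h4, h5, h6, h7⟩ :
          ∃ A R B : Finset (Fin n), A ⊆ U ∧ R ⊆ U ∧ B ⊆ U ∧ s ≤ A.card ∧
            (∀ a ∈ A, ∀ r ∈ R, H.Adj a r) ∧ (∀ a ∈ A, ∀ b ∈ B, Hᶜ.Adj a b) ∧
            (1 - 1 / x) * U.card ≤ (R.card : ℝ) + B.card := by
        obtain ⟨A, R, B, h1, h2, h3, h4, h5, h6, h7⟩ := pairL G U T s x hT hs hx1
          (fun v hv => hrow v (hU hv)) hDU.le
        rcases hH with rfl | rfl
        · exact ⟨A, R, B, h1, h2, h3, h4, h5, h6, h7⟩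
        · refine ⟨A, B, R, h1, h3, h2, h4, h6, ?_, by linarith⟩
          rw [compl_compl]
          exact h5
      have hAne : A.Nonempty := by
        rw [← card_pos]
        have : (0 : ℝ) < A.card := by linarith
        exact_mod_cast this
      rw [hxγ] at h7
      refine ⟨A, R, B, h1, h2, h3, hAne, h5, h6, h7, ?_⟩
      have hw : (1 : ℝ) ≤ w H A := by exact_mod_cast w_pos H hAne
      have hw' : (1 : ℝ) ≤ w Hᶜ A := by exact_mod_cast w_pos Hᶜ hAne
      have h8 := hKan (w H A / Y ^ j) (w Hᶜ A / Y ^ j) b (by positivity) (by positivity) hb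
        (by
          intro a ha
          have h9 := (hL A (h1.trans hU) h4 a ha).1
          rw [← mul_div_assoc, ← mul_div_assoc, ← add_div, le_div_iff₀ hYj]
          exact h9)
        (by
          intro a ha
          have h9 := (hL A (h1.trans hU) h4 a ha).2
          rw [← mul_div_assoc, ← mul_div_assoc, ← add_div, le_div_iff₀ hYj]
          exact h9)
      set p := K * b ^ (j + 1) * (w H A / Y ^ j) with hp
      set q := K * exp (-b) * (w Hᶜ A / Y ^ j) with hq
      have e1 : 2 * (K * b ^ (j + 1) / Y ^ j) * w H A = 2 * p := by rw [hp]; ring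
      have e2 : 2 * (K * exp (-b) / Y ^ j) * w Hᶜ A = 2 * q := by rw [hq]; ring
      rw [e1, e2]
      have hbj : (1 : ℝ) ≤ b ^ (j + 1) := one_le_pow₀ hb
      have hexpb : exp (-b) ≤ 1 := exp_le_one_iff.2 (by linarith)
      have hgp : g ≤ p := by
        have h9 : K * exp (-b) / Y ^ j ≤ K * b ^ (j + 1) / Y ^ j := by
          apply div_le_div_of_nonneg_right _ hYj.le
          exact mul_le_mul_of_nonneg_left (by linarith) hK.le
        have h10 : K * b ^ (j + 1) / Y ^ j * 1 ≤ K * b ^ (j + 1) / Y ^ j * w H A :=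
          mul_le_mul_of_nonneg_left hw (by positivity)
        have h11 : K * b ^ (j + 1) / Y ^ j * w H A = p := by rw [hp]; ring
        rw [hg]
        linarith
      have hgq : g ≤ q := by
        have h10 : K * exp (-b) / Y ^ j * 1 ≤ K * exp (-b) / Y ^ j * w Hᶜ A :=
          mul_le_mul_of_nonneg_left hw' (by positivity)
        have h11 : K * exp (-b) / Y ^ j * w Hᶜ A = q := by rw [hq]; ring
        rw [hg]
        linarith
      have f1 : exp (-(2 * p)) = exp (-p) * exp (-p) := by rw [← exp_add]; ring_nf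
      have f2 : exp (-(2 * q)) = exp (-q) * exp (-q) := by rw [← exp_add]; ring_nf
      have f3 : exp (-p) ≤ γ := exp_le_exp.2 (by linarith)
      have f4 : exp (-q) ≤ γ := exp_le_exp.2 (by linarith)
      rw [f1, f2]
      have f5 := mul_le_mul_of_nonneg_left f3 (exp_pos (-p)).le
      have f6 := mul_le_mul_of_nonneg_left f4 (exp_pos (-q)).le
      have f7 := mul_le_mul_of_nonneg_right h8 (exp_pos (-g)).le
      rw [← hγ] at f7
      nlinarith) U hUS
  -- the conclusion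
  have hDU : D * exp Y ≤ U.card := by
    refine le_trans ?_ hU
    have h1 : x ^ 2 ≤ ((1 + j.factorial / K) * exp (2 * Y)) ^ 2 :=
      pow_le_pow_left₀ (by linarith) hxb 2
    have h2 : ((1 + (j.factorial : ℝ) / K) * exp (2 * Y)) ^ 2 * exp Y =
        (1 + j.factorial / K) ^ 2 * exp (5 * Y) := by
      rw [mul_pow, ← exp_nat_mul, mul_assoc, ← exp_add]
      congr 2
      push_cast
      ring
    calc D * exp Y = 12 * s * T * (x ^ 2 * exp Y) := by rw [hD]; ring
      _ ≤ 12 * s * T * (((1 + j.factorial / K) * exp (2 * Y)) ^ 2 * exp Y) := by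
        apply mul_le_mul_of_nonneg_left _ (by positivity)
        exact mul_le_mul_of_nonneg_right h1 (exp_pos _).le
      _ = _ := by rw [h2]; ring
  have hM : Y ≤ 2 * (K * b ^ (j + 1) / Y ^ j) * w H U + 2 * (K * exp (-b) / Y ^ j) * w Hᶜ U := by
    have h1 : D * exp Y ≤ D * exp (2 * (K * b ^ (j + 1) / Y ^ j) * w H U +
        2 * (K * exp (-b) / Y ^ j) * w Hᶜ U) := hDU.trans hpot
    exact exp_le_exp.1 (le_of_mul_le_mul_left h1 hDpos)
  have e3 : 2 * (K * b ^ (j + 1) / Y ^ j) * w H U + 2 * (K * exp (-b) / Y ^ j) * w Hᶜ U =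
      2 * K / Y ^ j * (b ^ (j + 1) * w H U + exp (-b) * w Hᶜ U) := by ring
  rw [e3] at hM
  have h9 : Y * (Y ^ j / (2 * K)) ≤
      2 * K / Y ^ j * (b ^ (j + 1) * w H U + exp (-b) * w Hᶜ U) * (Y ^ j / (2 * K)) :=
    mul_le_mul_of_nonneg_right hM (by positivity)
  have e4 : 2 * K / Y ^ j * (b ^ (j + 1) * w H U + exp (-b) * w Hᶜ U) * (Y ^ j / (2 * K)) =
      b ^ (j + 1) * w H U + exp (-b) * w Hᶜ U := by
    field_simp
  have e5 : Y * (Y ^ j / (2 * K)) = 1 / (2 * K) * Y ^ (j + 1) := by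
    rw [pow_succ]
    field_simp
  have h10 : min 1 (1 / (2 * K)) * Y ^ (j + 1) ≤ 1 / (2 * K) * Y ^ (j + 1) :=
    mul_le_mul_of_nonneg_right (min_le_right _ _) (by positivity)
  linarith

/-- All levels. -/
theorem levelsL (j : ℕ) : ∃ c : ℝ, 0 < c ∧ c ≤ 1 ∧ ∃ Q : ℝ, 1 ≤ Q ∧
    ∀ (n : ℕ) (G : SimpleGraph (Fin n)) (S : Finset (Fin n)) (T : ℝ), 1 ≤ T →
    (∀ v ∈ S, (rowAlt G v : ℝ) ≤ T) → ∀ Y : ℝ, 1 ≤ Y → ∀ U ⊆ S,
      (Q * T) ^ j * exp ((5 * j + 1) * Y) ≤ U.card → Lvl G (j + 1) c Y U := by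
  induction j with
  | zero =>
    refine ⟨1 / 4, by norm_num, by norm_num, 1, le_refl _, ?_⟩
    intro n G S T _ _ Y _ U _ hU
    apply base G U
    simpa using hU
  | succ j ih =>
    obtain ⟨c, hc, -, Q, hQ, ih⟩ := ih
    obtain ⟨K, hK, hKan⟩ := analytic (j + 1) (by omega) c hc
    refine ⟨min 1 (1 / (2 * K)), by positivity, min_le_left _ _,
      max Q (12 * (1 + (j + 1).factorial / K) ^ 2), le_max_of_le_left hQ, ?_⟩
    intro n G S T hT hrow Y hY U hUS hU
    set s : ℝ := (Q * T) ^ j * exp ((5 * j + 1) * Y) with hs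
    have hQT : (1 : ℝ) ≤ Q * T := by nlinarith
    have hs1 : 1 ≤ s := by
      rw [hs]
      have h1 : (1 : ℝ) ≤ (Q * T) ^ j := one_le_pow₀ hQT
      have h2 : (1 : ℝ) ≤ exp ((5 * j + 1) * Y) := one_le_exp (by positivity)
      nlinarith
    have hcard : 12 * (1 + ((j + 1).factorial : ℝ) / K) ^ 2 * s * T * exp (5 * Y) ≤ U.card := by
      refine le_trans ?_ hU
      have e : exp ((5 * ((j + 1 : ℕ) : ℝ) + 1) * Y) = exp ((5 * j + 1) * Y) * exp (5 * Y) := by
        rw [← exp_add]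
        congr 1
        push_cast
        ring
      rw [e, pow_succ, hs]
      set Q' := max Q (12 * (1 + ((j + 1).factorial : ℝ) / K) ^ 2) with hQ'
      have h1 : (Q * T) ^ j ≤ (Q' * T) ^ j :=
        pow_le_pow_left₀ (by linarith) (mul_le_mul_of_nonneg_right (le_max_left _ _) (by linarith)) _
      have h2 : 12 * (1 + ((j + 1).factorial : ℝ) / K) ^ 2 * T ≤ Q' * T :=
        mul_le_mul_of_nonneg_right (le_max_right _ _) (by linarith)
      have h3 : (Q * T) ^ j * (12 * (1 + ((j + 1).factorial : ℝ) / K) ^ 2 * T) ≤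
          (Q' * T) ^ j * (Q' * T) :=
        mul_le_mul h1 h2 (by positivity) (by positivity)
      calc 12 * (1 + ((j + 1).factorial : ℝ) / K) ^ 2 * ((Q * T) ^ j * exp ((5 * j + 1) * Y)) * T *
            exp (5 * Y) = (Q * T) ^ j * (12 * (1 + ((j + 1).factorial : ℝ) / K) ^ 2 * T) *
            (exp ((5 * j + 1) * Y) * exp (5 * Y)) := by ring
        _ ≤ (Q' * T) ^ j * (Q' * T) * (exp ((5 * j + 1) * Y) * exp (5 * Y)) :=
          mul_le_mul_of_nonneg_right h3 (by positivity)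
    intro b hb
    have hLvl : ∀ A ⊆ S, s ≤ A.card → Lvl G (j + 1) c Y A := fun A hA hsA =>
      ih n G S T hT hrow Y hY A hA hsA
    refine ⟨stepL_half G hT hrow hs1 hY hK hKan G (Or.inl rfl) hLvl U hUS hcard b hb, ?_⟩
    have h := stepL_half G hT hrow hs1 hY hK hKan Gᶜ (Or.inr rfl)
      (fun A hA hsA => (hLvl A hA hsA).compl) U hUS hcard b hb
    rw [compl_compl] at h
    exact h

/-- The upper bound for a set of rows with few changes. -/
theorem upperS (j : ℕ) : ∃ C : ℝ, 0 < C ∧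
    ∀ (n : ℕ) (G : SimpleGraph (Fin n)) (S : Finset (Fin n)) (T : ℝ) (k : ℕ), 1 ≤ T → 1 ≤ k →
      (∀ v ∈ S, (rowAlt G v : ℝ) ≤ T) → G.CliqueFree k → Gᶜ.CliqueFree k →
      (S.card : ℝ) ≤ T ^ j * exp (C * (k : ℝ) ^ ((1 : ℝ) / ((j : ℝ) + 1))) := by
  obtain ⟨c, hc, hc1, Q, hQ, h⟩ := levelsL j
  have hj0 : ((j : ℝ) + 1) ≠ 0 := by positivity
  have hlogQ : 0 ≤ log Q := log_nonneg hQ
  refine ⟨(5 * (j : ℝ) + 1) * (2 / c) ^ ((1 : ℝ) / ((j : ℝ) + 1)) + j * log Q, by positivity, ?_⟩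
  intro n G S T k hT hk hrow h1 h2
  by_contra hcon
  push Not at hcon
  have hk' : (1 : ℝ) ≤ k := by exact_mod_cast hk
  set Y : ℝ := (2 / c * k) ^ ((1 : ℝ) / ((j : ℝ) + 1)) with hY
  have h2c : 1 ≤ 2 / c * k := by
    have : 1 ≤ 2 / c := by
      rw [le_div_iff₀ hc]
      linarith
    nlinarith
  have hY1 : 1 ≤ Y := by
    rw [hY]
    exact one_le_rpow h2c (by positivity)
  have hYpow : Y ^ (j + 1) = 2 / c * k := by
    have e0 : (((j + 1 : ℕ) : ℝ)) = (j : ℝ) + 1 := by push_cast; ring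
    rw [hY, ← rpow_natCast, ← rpow_mul (by positivity), e0, one_div, inv_mul_cancel₀ hj0,
      rpow_one]
  set z : ℝ := (k : ℝ) ^ ((1 : ℝ) / ((j : ℝ) + 1)) with hz
  have hz1 : 1 ≤ z := one_le_rpow hk' (by positivity)
  have e : (2 / c) ^ ((1 : ℝ) / ((j : ℝ) + 1)) * z = Y := by
    rw [hY, mul_rpow (by positivity) (by positivity)]
  have hbig : (Q * T) ^ j * exp ((5 * j + 1) * Y) ≤ S.card := by
    refine le_trans ?_ hcon.le
    have h3 : ((5 * (j : ℝ) + 1) * (2 / c) ^ ((1 : ℝ) / ((j : ℝ) + 1)) + j * log Q) * z =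
        (5 * j + 1) * Y + j * log Q * z := by
      rw [← e]
      ring
    rw [h3, exp_add, mul_pow]
    have h4 : Q ^ j ≤ exp (j * log Q * z) := by
      have h5 : Q ^ j = exp (j * log Q) := by
        rw [exp_nat_mul, exp_log (by linarith)]
      rw [h5]
      apply exp_le_exp.2
      have : 0 ≤ (j : ℝ) * log Q := by positivity
      nlinarith
    calc Q ^ j * T ^ j * exp ((5 * j + 1) * Y) = T ^ j * exp ((5 * j + 1) * Y) * Q ^ j := by ring
      _ ≤ T ^ j * exp ((5 * j + 1) * Y) * exp (j * log Q * z) :=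
        mul_le_mul_of_nonneg_left h4 (by positivity)
      _ = _ := by ring
  have h3 := (h n G S T hT hrow Y hY1 S (Subset.refl _) hbig 1 le_rfl).1
  rw [hYpow, one_pow, one_mul] at h3
  have h4 : (w G S : ℝ) + 1 ≤ k := by exact_mod_cast w_lt G h1 S
  have h5 : (w Gᶜ S : ℝ) + 1 ≤ k := by exact_mod_cast w_lt Gᶜ h2 S
  have h6 : exp (-1) ≤ 1 := exp_le_one_iff.2 (by norm_num)
  have h7 : exp (-1) * w Gᶜ S ≤ w Gᶜ S := by
    have : (0 : ℝ) ≤ w Gᶜ S := Nat.cast_nonneg _
    nlinarith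
  have h8 : c * (2 / c * k) = 2 * k := by field_simp
  linarith

end Pool.Agent.Run7.h614.RA
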